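import Mathlib

/-! A maximum principle for a weighted graph of out-degree two, and the analytic form of the
resulting bound. -/

namespace Pool.Agent.Work.MP_563a32_gt.Two

theorem edge {h X : ℝ} (hh : 0 < h) (hX : 1 < X) {p q r s : ℕ} (e : p + q ≤ r + s) :
    h / X ^ s * X ^ p ≤ h * X ^ r / X ^ q := by
  have x0 : 0 < X := by linarith
  rw [div_mul_eq_mul_div, div_le_div_iff₀ (by positivity) (by positivity), mul_assoc, mul_assoc,
    ← pow_add, ← pow_add]
  exact mul_le_mul_of_nonneg_left (pow_le_pow_right₀ hX.le e) hh.le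

/-- The edge from `u` to `v` with coefficient `b` is long, or goes down in rank. -/
def Fine {U : Type} (ρ rk : U → ℕ) (u v : U) (b : ℕ) : Prop :=
  ρ u + 3 ≤ b + ρ v ∨ (ρ u ≤ b + ρ v ∧ rk v < rk u)

instance {U : Type} (ρ rk : U → ℕ) (u v : U) (b : ℕ) : Decidable (Fine ρ rk u v b) := by
  unfold Fine; infer_instance

def cost {U : Type} (ρ c : U → ℕ) (u v : U) (b : ℕ) : ℕ := if ρ u + 3 ≤ b + ρ v then 1 else c v

theorem maxp {U : Type} [Fintype U] [Nonempty U] (t1 t2 : U → U) (e1 e2 b1 b2 ρ rk c : U → ℕ)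
    (lp : U → Bool) (H : U → ℝ) (hH : ∀ u, 0 < H u) {X : ℝ} (hX : 1 < X) {s t : ℕ} (hs : 1 ≤ s)
    (heq : ∀ u, H u = H (t1 u) / X ^ e1 u + H (t2 u) / X ^ e2 u)
    (h1 : ∀ u, b1 u * t ≤ e1 u) (h2 : ∀ u, b2 u * t ≤ e2 u) (hl : ∀ u, lp u = true → s ≤ e1 u)
    (h6 : ∀ u, c u ≤ 6)
    (hc : ∀ u, (lp u = true ∧ t1 u = u ∧ ρ u + 3 ≤ b2 u + ρ (t2 u) ∧ 1 ≤ c u) ∨
      (Fine ρ rk u (t1 u) (b1 u) ∧ Fine ρ rk u (t2 u) (b2 u) ∧
        cost ρ c u (t1 u) (b1 u) + cost ρ c u (t2 u) (b2 u) ≤ c u)) :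
    (X ^ s - 1) * X ^ (3 * t) ≤ 6 * X ^ s := by
  have x0 : 0 < X := by linarith
  obtain ⟨K, hK⟩ : ∃ K : U → ℝ, ∀ u, K u = H u * X ^ (ρ u * t) := ⟨_, fun _ => rfl⟩
  have K0 : ∀ u, 0 < K u := fun u => by rw [hK]; exact mul_pos (hH u) (by positivity)
  obtain ⟨m, hm⟩ := Finite.exists_max K
  have xs : 1 < X ^ s := one_lt_pow₀ hX (by omega)
  obtain ⟨E, hE⟩ : ∃ E, E = 1 - 1 / X ^ s := ⟨_, rfl⟩
  have E0 : 0 < E := by rw [hE, sub_pos, div_lt_one (by linarith)]; exact xs
  have E1 : E ≤ 1 := by rw [hE]; have : 0 < 1 / X ^ s := by positivity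
                        linarith
  obtain ⟨Z, hZ⟩ : ∃ Z, Z = K m / X ^ (3 * t) := ⟨_, rfl⟩
  have Z0 : 0 < Z := by rw [hZ]; exact div_pos (K0 m) (by positivity)
  have ZW : Z ≤ Z / E := by rw [le_div_iff₀ E0]; nlinarith
  have long : ∀ u v b e, b * t ≤ e → ρ u + 3 ≤ b + ρ v → H v / X ^ e * X ^ (ρ u * t) ≤ Z := by
    intro u v b e he hb
    refine (edge (hH v) hX (q := 3 * t) (r := ρ v * t) ?_).trans ?_
    · have := Nat.mul_le_mul_right t hb
      rw [add_mul, add_mul] at this
      omega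
    · rw [← hK, hZ]
      exact div_le_div_of_nonneg_right (hm v) (by positivity)
  have short : ∀ u v b e, b * t ≤ e → ρ u ≤ b + ρ v → H v / X ^ e * X ^ (ρ u * t) ≤ K v := by
    intro u v b e he hb
    refine (edge (hH v) hX (q := 0) (r := ρ v * t) ?_).trans ?_
    · have := Nat.mul_le_mul_right t hb
      rw [add_mul] at this
      omega
    · rw [← hK, pow_zero, div_one]
  have key : ∀ n u, rk u < n → K u ≤ c u * (Z / E) := by
    intro n
    induction n with
    | zero => intro u hu; omega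
    | succ n ih =>
      intro u hu
      have e : K u = H (t1 u) / X ^ e1 u * X ^ (ρ u * t) +
          H (t2 u) / X ^ e2 u * X ^ (ρ u * t) := by rw [hK, ← add_mul, ← heq]
      have one : ∀ v b e, b * t ≤ e → Fine ρ rk u v b →
          H v / X ^ e * X ^ (ρ u * t) ≤ cost ρ c u v b * (Z / E) := by
        intro v b e he hf
        unfold cost
        split_ifs with hb
        · rw [Nat.cast_one, one_mul]
          exact (long u v b e he hb).trans ZW
        · obtain ⟨f1, f2⟩ := hf.resolve_left hb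
          exact (short u v b e he f1).trans (ih v (by omega))
      rcases hc u with ⟨l1, l2, l3, l4⟩ | ⟨f1, f2, f3⟩
      · have a1 := long u _ _ _ (h2 u) l3
        have a2 : H (t1 u) / X ^ e1 u * X ^ (ρ u * t) ≤ K u / X ^ s := by
          rw [l2, hK]
          exact edge (hH u) hX (by have := hl u l1; omega)
        have a3 : K u * E ≤ Z := by
          rw [hE, mul_sub, mul_one, mul_one_div]
          linarith
        have a4 : (1 : ℝ) ≤ c u := by exact_mod_cast l4
        have a5 : K u ≤ Z / E := (le_div_iff₀ E0).2 a3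
        have a6 : 0 < Z / E := div_pos Z0 E0
        nlinarith
      · have a1 := one _ _ _ (h1 u) f1
        have a2 := one _ _ _ (h2 u) f2
        have a3 : (cost ρ c u (t1 u) (b1 u) : ℝ) + cost ρ c u (t2 u) (b2 u) ≤ c u := by
          exact_mod_cast f3
        have a6 : 0 < Z / E := div_pos Z0 E0
        nlinarith
  have a1 := key _ m (Nat.lt_succ_self _)
  have a2 : (c m : ℝ) ≤ 6 := by exact_mod_cast h6 m
  have a3 : K m ≤ 6 * (Z / E) := a1.trans (by gcongr)
  rw [hZ, div_div, ← mul_div_assoc, le_div_iff₀ (by positivity), mul_comm 6] at a3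
  have a4 := le_of_mul_le_mul_left a3 (K0 m)
  have a5 : (X ^ s - 1) * X ^ (3 * t) = X ^ (3 * t) * E * X ^ s := by
    rw [hE]; field_simp
  rw [a5]
  gcongr

theorem half_log {w : ℝ} (hw : 0 < w) : Real.log w ≤ w / 2 := by
  have h4 : Real.log (w / 2) ≤ w / 2 - 1 := Real.log_le_sub_one_of_pos (by linarith)
  rw [Real.log_div hw.ne' (by norm_num)] at h4
  linarith only [h4, Real.log_two_lt_d9]

theorem high_two {g n t x : ℝ} (hg : 2 ≤ g) (hn : 400 * g ≤ n) (ht : n ≤ 2 * (g + t) + 3)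
    (hx : 0 < x) (hl : 1 ≤ Real.log (n / g))
    (h : (Real.exp (g * x) - 1) * Real.exp (t * x) ≤ 6 * Real.exp (g * x)) :
    n * x ≤ 2 * Real.log (n / g / Real.log (n / g)) + 5 := by
  have g0 : 0 < g := by linarith
  obtain ⟨T, rfl⟩ : ∃ T, n = T * g := ⟨n / g, by field_simp⟩
  have hT : 400 ≤ T := le_of_mul_le_mul_right hn g0
  rw [mul_div_cancel_right₀ _ g0.ne'] at hl ⊢
  have T0 : 0 < T := by linarith
  obtain ⟨y, hy⟩ : ∃ y, y = g * x := ⟨_, rfl⟩
  have y0 : 0 < y := hy ▸ mul_pos g0 hx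
  have h1 : (T / 2 - 2) * y ≤ t * x := by
    rw [hy, ← mul_assoc]
    exact mul_le_mul_of_nonneg_right (by linarith) hx.le
  rw [mul_assoc, ← hy]
  rw [← hy] at h
  have h2 : y * Real.exp ((T / 2 - 3) * y) ≤ 6 := by
    have a1 : y ≤ Real.exp y - 1 := by linarith only [Real.add_one_le_exp y]
    have a2 : Real.exp ((T / 2 - 3) * y) * Real.exp y ≤ Real.exp (t * x) := by
      rw [← Real.exp_add]
      exact Real.exp_le_exp.2 (by linarith)
    have a3 : y * (Real.exp ((T / 2 - 3) * y) * Real.exp y) ≤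
        (Real.exp y - 1) * Real.exp (t * x) := by gcongr; linarith
    have a4 := a3.trans h
    rw [← mul_assoc] at a4
    exact le_of_mul_le_mul_right a4 (Real.exp_pos y)
  by_contra hc
  rw [not_le] at hc
  rcases le_total y (1 / 10) with h3 | h3
  · have a1 : T / Real.log T * Real.exp 2 ≤ Real.exp ((T / 2 - 3) * y) := by
      rw [← Real.exp_log (show 0 < T / Real.log T by positivity), ← Real.exp_add]
      exact Real.exp_le_exp.2 (by linarith)
    have a2 : 7 ≤ Real.exp 2 := by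
      rw [show (2 : ℝ) = (2 : ℕ) * 1 by norm_num, Real.exp_nat_mul]
      calc (7 : ℝ) ≤ 2.7182818283 ^ 2 := by norm_num
        _ ≤ _ := by gcongr; exact Real.exp_one_gt_d9.le
    have a3 := half_log (show 0 < Real.log T by linarith)
    rw [Real.log_div T0.ne' (by linarith)] at hc
    have a4 : 1 ≤ T * y / Real.log T := (one_le_div (by linarith)).2 (by linarith)
    have a5 : y * (T / Real.log T * 7) ≤ y * Real.exp ((T / 2 - 3) * y) := by
      refine mul_le_mul_of_nonneg_left (le_trans ?_ a1) y0.le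
      gcongr
    have a6 : y * (T / Real.log T * 7) = 7 * (T * y / Real.log T) := by ring
    linarith
  · have a1 : 10 ≤ Real.exp ((T / 2 - 3) * y / 2) := by
      have : 197 * (1 / 10) ≤ (T / 2 - 3) * y :=
        mul_le_mul (by linarith) h3 (by norm_num) (by linarith)
      linarith only [this, Real.add_one_le_exp ((T / 2 - 3) * y / 2)]
    have a2 : Real.exp ((T / 2 - 3) * y) =
        Real.exp ((T / 2 - 3) * y / 2) * Real.exp ((T / 2 - 3) * y / 2) := by
      rw [← Real.exp_add, add_halves]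
    have a3 : 1 / 10 * (10 * 10) ≤ y * Real.exp ((T / 2 - 3) * y) := by
      rw [a2]; gcongr
    linarith

theorem genus_two {n : ℝ} (hn : 800 ≤ n) (hl : 1 ≤ Real.log (n / 2)) :
    Real.log (n / 1 / Real.log (n / 1)) + 2 ≤ 2 * Real.log (n / 2 / Real.log (n / 2)) + 5 := by
  have n0 : 0 < n := by linarith
  have a1 : Real.log (n / 2) = Real.log n - Real.log 2 := Real.log_div n0.ne' (by norm_num)
  have a2 := Real.log_two_lt_d9
  have a3 := Real.log_two_gt_d9
  have a4 := half_log (show 0 < Real.log (n / 2) by linarith)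
  have a5 : 0 ≤ Real.log (Real.log n) := Real.log_nonneg (by linarith)
  rw [div_one, Real.log_div n0.ne' (by linarith), Real.log_div (by positivity) (by linarith)]
  linarith

end Pool.Agent.Work.MP_563a32_gt.Two
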