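import Pool.Agent.Work.MP_563a32_gt.SB
import Pool.Agent.Work.MP_563a32_gt.W1
import Pool.Agent.Work.MP_563a32_gt.Two.A

/-! The upper bound `2 log (T / log T) + 5` for all pairs `(g, n)`, from the triangulation with
18 tetrahedra. -/

namespace Pool.Agent.Work.MP_563a32_gt.Two
open Finset

theorem bx {U Cu : Type} {V : Veer U Cu} (A : V.Ax) : V.Bx where
  w_pos := A.w_pos
  col_up := A.col_up
  ed_zero := A.ed_zero
  sd_zero := A.sd_zero
  o_zero := A.o_zero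
  col_one := A.col_one
  col_two := A.col_two
  last := A.last
  step := A.step
  o_le := A.o_le
  ft_irr := A.ft_irr
  rt_irr := A.rt_irr
  m_pos := A.m_pos
  mc_pos := A.mc_pos
  mc_cop := A.mc_one.imp fun c hc => ⟨c, by rw [hc]; exact Nat.coprime_one_left _⟩
  cusp_root := A.cusp_root
  cusp_lnk := A.cusp_lnk
  disc_dvd := A.disc_dvd
  tree := A.tree
  gen := A.gen
  pot0_dvd := A.pot0_dvd
  tree0 := A.tree0

theorem realise {U Cu : Type} {k : ℕ} {T : Tab U Cu k} [Fintype U] [DecidableEq U] [Fintype Cu]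
    [DecidableEq Cu] (h : T.Ok) (tot : Fin k → ℕ) (prt : Cu → Fin k → ℕ)
    (htot : ∀ i, ∑ F, T.wv F i = tot i)
    (hprt : ∀ c i, ∑ F ∈ univ.filter (fun F : U × Bool => T.cusp F.1 (topV F.2 2) = c),
      T.wv F i = prt c i)
    (x : Fin k → ℕ) (hx : 1 ≤ x T.i0) (mc : Cu → ℕ)
    (hmc : ∀ c, Int.gcd (linZ (T.Y c) x) (linZ (T.Z c) x) = mc c) (hone : ∃ c, mc c = 1)
    (Pn : Finset Cu) (h3 : ∀ c, c ∉ Pn → 3 * (T.m * mc c) ≤ lin (prt c) x) {g n : ℕ}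
    (hg : lin tot x + T.m * 4 = T.m * (4 * g + 2 * ∑ c, mc c)) (hn : n = ∑ c ∈ Pn, mc c) :
    ∃ G : (T.veer x).Geo, G.Ok ∧ (T.m : ℝ) * Real.log G.x ∈ Spectrum g n := by
  have hmc' : (T.veer x).mc = mc := funext hmc
  refine (bx (h.ax x hx (by rw [hmc']; exact hone))).realise Pn ?_ ?_ (by rw [hmc']; exact hn)
  · intro c hc
    have : (T.veer x).prt c = lin (prt c) x := by
      simp only [Veer.prt, Tab.veer, lin]
      rw [sum_comm]
      exact sum_congr rfl fun i _ => by rw [← sum_mul]; exact congrArg (· * x i) (hprt c i)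
    rw [this, Veer.per, hmc']; exact h3 c hc
  · have : ∑ F, (T.veer x).w F = lin tot x := by
      simp only [Tab.veer, lin]
      rw [sum_comm]
      exact sum_congr rfl fun i _ => by rw [← sum_mul, htot]
    rw [this, hmc']; exact hg

theorem lin_ge {k : ℕ} (v x : Fin k → ℕ) (i : Fin k) : v i * x i ≤ lin v x :=
  single_le_sum (f := fun i => v i * x i) (fun _ _ => Nat.zero_le _) (mem_univ i)

def side (u : Fin 18) : Bool :=
  [true, true, true, true, false, false, false, false, true, true, false, false, false, false,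
    false, false, false, true].getD u false

def res (u : Fin 18) : ℕ := [0, 0, 1, 1, 2, 0, 0, 0, 0, 0, 1, 1, 1, 1, 2, 2, 2, 1].getD u 0

def rank (u : Fin 18) : ℕ := [1, 1, 2, 2, 3, 0, 1, 1, 0, 0, 2, 2, 2, 2, 3, 3, 3, 3].getD u 0

def cst (u : Fin 18) : ℕ := [2, 2, 3, 3, 6, 2, 2, 2, 1, 1, 3, 3, 3, 3, 6, 6, 4, 4].getD u 0

def loop (u : Fin 18) : Bool := u == 8 || u == 9

theorem eig {g t : ℕ} (hg : 1 ≤ g) (G : (C40.tab.veer ![g, t, 0, 1, 0, 0]).Geo) (hG : G.Ok) :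
    (G.x ^ (3 * g) - 1) * G.x ^ (3 * t) ≤ 6 * G.x ^ (3 * g) := by
  refine maxp (fun u => C40.tab.ed (u, side u) 1) (fun u => C40.tab.ed (u, side u) 2)
    (fun u => lin (C40.tab.ov (u, side u) 1) ![g, t, 0, 1, 0, 0])
    (fun u => lin (C40.tab.ov (u, side u) 2) ![g, t, 0, 1, 0, 0])
    (fun u => C40.tab.ov (u, side u) 1 1) (fun u => C40.tab.ov (u, side u) 2 1) res rank cst loop
    G.H hG.H_pos hG.one_lt (by omega) (fun u => hG.eqH (u, side u))
    (fun u => lin_ge (C40.tab.ov (u, side u) 1) ![g, t, 0, 1, 0, 0] 1)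
    (fun u => lin_ge (C40.tab.ov (u, side u) 2) ![g, t, 0, 1, 0, 0] 1) (fun u hu => ?_)
    (by decide +kernel) (by decide +kernel)
  have h : ∀ u, loop u = true → 3 ≤ C40.tab.ov (u, side u) 1 0 := by decide +kernel
  exact (Nat.mul_le_mul_right g (h u hu)).trans (lin_ge _ ![g, t, 0, 1, 0, 0] 0)

theorem family {g t n : ℕ} (p : Bool) (hg : 3 ≤ g) (hn : n = 2 * (g + t) + 2 + if p then 1 else 0) :
    ∃ l ∈ Spectrum g n, 0 < l ∧
      (Real.exp (g * l) - 1) * Real.exp (t * l) ≤ 6 * Real.exp (g * l) := by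
  have l6 : ∀ v : Fin 6 → ℕ, lin v ![g, t, 0, 1, 0, 0] =
      v 0 * g + v 1 * t + v 2 * 0 + v 3 * 1 + v 4 * 0 + v 5 * 0 := fun _ => Fin.sum_univ_six _
  have z6 : ∀ v : Fin 6 → ℤ, linZ v ![g, t, 0, 1, 0, 0] =
      v 0 * g + v 1 * t + v 2 * (0 : ℕ) + v 3 * (1 : ℕ) + v 4 * (0 : ℕ) + v 5 * (0 : ℕ) :=
    fun _ => Fin.sum_univ_six _
  obtain ⟨G, hG, hm⟩ := realise C40.ok ![48, 24, 12, 12, 12, 12] C40.prt C40.htot C40.hprt
    ![g, t, 0, 1, 0, 0] (by show 1 ≤ g; omega)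
    ![1, 1, g + (g + t), g + (g + t + 1), g + t + 1, g + t]
    (by
      intro c
      rw [z6, z6]
      fin_cases c
      · show Int.gcd (0 * (g : ℤ) + 0 * t + 0 * (0 : ℕ) + 1 * (1 : ℕ) + 0 * (0 : ℕ) + -1 * (0 : ℕ))
          _ = 1
        simp
      · show Int.gcd (0 * (g : ℤ) + 0 * t + 0 * (0 : ℕ) + 1 * (1 : ℕ) + 0 * (0 : ℕ) + -1 * (0 : ℕ))
          _ = 1
        simp
      · show Int.gcd (0 * (g : ℤ) + 0 * t + 0 * (0 : ℕ) + 0 * (1 : ℕ) + 0 * (0 : ℕ) + 0 * (0 : ℕ))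
          (2 * (g : ℤ) + 1 * t + 0 * (0 : ℕ) + 0 * (1 : ℕ) + 1 * (0 : ℕ) + 1 * (0 : ℕ)) =
          g + (g + t)
        simp only [zero_mul, add_zero, Int.gcd_zero_left]; omega
      · show Int.gcd (0 * (g : ℤ) + 0 * t + 0 * (0 : ℕ) + 0 * (1 : ℕ) + 0 * (0 : ℕ) + 0 * (0 : ℕ))
          (2 * (g : ℤ) + 1 * t + 1 * (0 : ℕ) + 1 * (1 : ℕ) + 0 * (0 : ℕ) + 0 * (0 : ℕ)) =
          g + (g + t + 1)
        simp only [zero_mul, add_zero, Int.gcd_zero_left]; omega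
      · show Int.gcd (0 * (g : ℤ) + 0 * t + -1 * (0 : ℕ) + 0 * (1 : ℕ) + 1 * (0 : ℕ) + 0 * (0 : ℕ))
          (1 * (g : ℤ) + 1 * t + 0 * (0 : ℕ) + 1 * (1 : ℕ) + 0 * (0 : ℕ) + 0 * (0 : ℕ)) =
          g + t + 1
        simp only [zero_mul, add_zero, Nat.cast_zero, mul_zero, Int.gcd_zero_left]; omega
      · show Int.gcd (0 * (g : ℤ) + 0 * t + -1 * (0 : ℕ) + 0 * (1 : ℕ) + 1 * (0 : ℕ) + 0 * (0 : ℕ))
          (1 * (g : ℤ) + 1 * t + 0 * (0 : ℕ) + 0 * (1 : ℕ) + 0 * (0 : ℕ) + 1 * (0 : ℕ)) = g + t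
        simp only [zero_mul, add_zero, Nat.cast_zero, mul_zero, Int.gcd_zero_left]; omega)
    ⟨0, rfl⟩ (univ.filter fun c => ![true, p, false, false, true, true] c = true) (g := g) (n := n)
    (by
      intro c hc
      rw [l6]
      rw [mem_filter_univ, ← Ne, ← Bool.eq_false_iff] at hc
      fin_cases c
      · cases hc
      · show 3 * (3 * 1) ≤ 3 * g + 0 * t + 3 * 0 + 0 * 1 + 0 * 0 + 0 * 0; omega
      · show 3 * (3 * (g + (g + t))) ≤ 18 * g + 9 * t + 0 * 0 + 0 * 1 + 9 * 0 + 9 * 0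
        omega
      · show 3 * (3 * (g + (g + t + 1))) ≤ 18 * g + 9 * t + 9 * 0 + 9 * 1 + 0 * 0 + 0 * 0
        omega
      · cases hc
      · cases hc)
    (by
      rw [l6, Fin.sum_univ_six]
      show 48 * g + 24 * t + 12 * 0 + 12 * 1 + 12 * 0 + 12 * 0 + 3 * 4 = 3 * (4 * g + 2 *
        (1 + 1 + (g + (g + t)) + (g + (g + t + 1)) + (g + t + 1) + (g + t)))
      omega)
    (by
      rw [hn, sum_filter, Fin.sum_univ_six]
      show _ = 1 + (if p = true then 1 else 0) + 0 + 0 + (g + t + 1) + (g + t)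
      omega)
  have x1 := hG.one_lt
  have x0 : 0 < G.x := by linarith
  have e : ∀ j : ℕ, Real.exp (j * (((3 : ℕ) : ℝ) * Real.log G.x)) = G.x ^ (3 * j) := fun j => by
    rw [← mul_assoc, ← Nat.cast_mul, ← Real.log_pow, Real.exp_log (by positivity), mul_comm]
  refine ⟨((3 : ℕ) : ℝ) * Real.log G.x, hm, mul_pos (by norm_num) (Real.log_pos x1), ?_⟩
  rw [e, e]
  exact eig (by omega) G hG

theorem upper_two {g n : ℕ} (hg : 2 ≤ g) (hn : 400 * g ≤ n) :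
    ∃ l ∈ Spectrum g n, n * l ≤ 2 * Real.log ((n : ℝ) / g / Real.log (n / g)) + 5 := by
  have g2 : (2 : ℝ) ≤ g := by exact_mod_cast hg
  have n4 : (400 : ℝ) * g ≤ n := by exact_mod_cast hn
  have hl := (SA_log (T := (n : ℝ) / g) (by rw [le_div_iff₀ (by linarith)]; exact n4)).1
  rcases Nat.eq_or_lt_of_le hg with rfl | h3
  · obtain ⟨l, h1, h2⟩ := second_upper (κ := 1) hg hn (one_dvd _) (Nat.coprime_one_left _)
    refine ⟨l, h1, h2.trans ?_⟩
    push_cast at hl n4 ⊢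
    exact genus_two (by linarith) hl
  · obtain ⟨t, ht⟩ : ∃ t, n / 2 = g + t + 1 := ⟨n / 2 - 1 - g, by omega⟩
    obtain ⟨l, h1, h2, h4⟩ := family (g := g) (t := t) (n := n) (decide (n % 2 = 1)) h3
      (by by_cases h : n % 2 = 1 <;> simp [h] <;> omega)
    exact ⟨l, h1, high_two g2 n4 (by exact_mod_cast (by omega : n ≤ 2 * (g + t) + 3)) h2 hl h4⟩

theorem upper_min {g n κ : ℕ} (hg : 2 ≤ g) (hn : 400 * g ≤ n) (hd : κ ∣ g - 1)
    (hc : Nat.Coprime κ n) :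
    ∃ l ∈ Spectrum g n, n * l ≤ min (Real.log ((n : ℝ) / κ / Real.log (n / κ)) + 2)
      (2 * Real.log ((n : ℝ) / g / Real.log (n / g)) + 5) := by
  rcases le_total (Real.log ((n : ℝ) / κ / Real.log (n / κ)) + 2)
    (2 * Real.log ((n : ℝ) / g / Real.log (n / g)) + 5) with h | h
  · rw [min_eq_left h]; exact second_upper hg hn hd hc
  · rw [min_eq_right h]; exact upper_two hg hn

end Pool.Agent.Work.MP_563a32_gt.Two
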